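import Pool.Agent.helper5.IH.Spec

/-! # Row POS of the ih project: every vertex has exactly two positions -/

set_option autoImplicit false

namespace Pool.Agent.IH
open Finset CT SYM

private theorem POS_count {V : Type} [Fintype V] [DecidableEq V] (G : SimpleGraph V) (m : ℕ) (q : ℕ → V)
    (h4 : FourRegular G) (hE : EW G m q) (v : V) : ((range m).filter fun i => q i = v).card = 2 := by
  classical
  set A : Finset ℕ := (range m).filter fun i => q i = v with hA
  set B : Finset ℕ := (range m).filter fun i => q (i + 1) = v with hB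
  have hAB : A.card = B.card := by
    rw [hA, hB, Finset.card_filter, Finset.card_filter]
    have h1 := Finset.sum_range_succ (fun i => if q i = v then 1 else 0) m
    have h2 := Finset.sum_range_succ' (fun i => if q i = v then 1 else 0) m
    have h3 : q m = q 0 := by
      have := hE.per 0
      rwa [zero_add] at this
    rw [h1, h3] at h2
    exact Nat.add_right_cancel h2
  have hdis : Disjoint A B := by
    rw [Finset.disjoint_left]
    intro i hi hi'
    rw [hA, Finset.mem_filter] at hi
    rw [hB, Finset.mem_filter] at hi'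
    have h1 := hE.adj i
    rw [hi.2, hi'.2] at h1
    exact G.loopless.irrefl v h1
  have hmem : ∀ i, i ∈ A ∪ B ↔ i < m ∧ v ∈ s(q i, q (i + 1)) := by
    intro i
    rw [Finset.mem_union, hA, hB, Finset.mem_filter, Finset.mem_filter, Finset.mem_range, Sym2.mem_iff]
    constructor
    · rintro (⟨h1, h2⟩ | ⟨h1, h2⟩)
      · exact ⟨h1, Or.inl h2.symm⟩
      · exact ⟨h1, Or.inr h2.symm⟩
    · rintro ⟨h1, h2 | h2⟩
      · exact Or.inl ⟨h1, h2.symm⟩
      · exact Or.inr ⟨h1, h2.symm⟩
  have hcard : (A ∪ B).card = 4 := by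
    have h1 : (A ∪ B).image (fun i => s(q i, q (i + 1))) =
        (Finset.univ.filter fun w => G.Adj v w).image (fun w => s(v, w)) := by
      ext e
      rw [Finset.mem_image, Finset.mem_image]
      constructor
      · rintro ⟨i, hi, rfl⟩
        obtain ⟨_, h2⟩ := (hmem i).1 hi
        rcases Sym2.mem_iff.1 h2 with h3 | h3
        · refine ⟨q (i + 1), Finset.mem_filter.2 ⟨Finset.mem_univ _, ?_⟩, by rw [h3]⟩
          rw [h3]
          exact hE.adj i
        · refine ⟨q i, Finset.mem_filter.2 ⟨Finset.mem_univ _, ?_⟩, by rw [h3, Sym2.eq_swap]⟩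
          rw [h3]
          exact (hE.adj i).symm
      · rintro ⟨w, hw, rfl⟩
        obtain ⟨i, hi, he⟩ := hE.sur v w (Finset.mem_filter.1 hw).2
        refine ⟨i, (hmem i).2 ⟨hi, ?_⟩, he⟩
        rw [he]
        exact Sym2.mem_mk_left v w
    have h2 : (A ∪ B).card = ((A ∪ B).image (fun i => s(q i, q (i + 1)))).card := by
      rw [Finset.card_image_of_injOn]
      intro i hi j hj hij
      exact hE.inj i ((hmem i).1 hi).1 j ((hmem j).1 hj).1 hij
    have h3 : ((Finset.univ.filter fun w => G.Adj v w).image (fun w => s(v, w))).card =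
        (Finset.univ.filter fun w => G.Adj v w).card := by
      apply Finset.card_image_of_injective
      intro w w' hww
      exact Sym2.congr_right.1 hww
    have h5 := h4 v
    rw [Nat.card_eq_fintype_card, Fintype.card_subtype] at h5
    rw [h2, h1, h3]
    exact h5
  rw [Finset.card_union_of_disjoint hdis] at hcard
  omega

theorem POS : POS_stmt := by
  intro V _ _ G m q h4 hE
  have h1 : ∀ v : V, ∃ x y : ℕ, x < y ∧ ((range m).filter fun i => q i = v) = {x, y} := by
    intro v
    obtain ⟨x, y, hne, hxy⟩ := Finset.card_eq_two.1 (POS_count G m q h4 hE v)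
    rcases lt_or_gt_of_ne hne with h | h
    · exact ⟨x, y, h, hxy⟩
    · exact ⟨y, x, h, by rw [hxy, Finset.pair_comm]⟩
  choose a b hab hA using h1
  have ha : ∀ v, a v ∈ (range m).filter fun i => q i = v := fun v => by
    rw [hA v]
    exact Finset.mem_insert_self _ _
  have hb : ∀ v, b v ∈ (range m).filter fun i => q i = v := fun v => by
    rw [hA v]
    exact Finset.mem_insert_of_mem (Finset.mem_singleton_self _)
  refine ⟨a, b, ⟨fun v => ⟨hab v, Finset.mem_range.1 (Finset.mem_filter.1 (hb v)).1⟩,
    fun v => ⟨(Finset.mem_filter.1 (ha v)).2, (Finset.mem_filter.1 (hb v)).2⟩, fun i hi => ?_⟩⟩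
  have h2 : i ∈ (range m).filter fun j => q j = q i := Finset.mem_filter.2 ⟨Finset.mem_range.2 hi, rfl⟩
  rw [hA (q i), Finset.mem_insert, Finset.mem_singleton] at h2
  exact h2

end Pool.Agent.IH
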